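import Pool.Agent.TH32.H.Final

/-! A `ℤ`-algebra of rank 4 whose topological subalgebra zeta function has no pole at zero. -/

namespace Pool.Agent.Results.MP_512a3e_al.NoPoleAtZero

open Polynomial

theorem result : ∃ (c : Fin 4 → Fin 4 → Fin 4 → ℤ) (N D : ℚ[X]),
    (∀ i j k, c i j k =
      if (i = 0 ∧ j = 1 ∧ k = 2) ∨ (i = 1 ∧ j = 0 ∧ k = 3) ∨ (i = 2 ∧ j = 3 ∧ k = 0)
        then 1 else 0) ∧
    Pool.Agent.TH32.IsTopZetaC c N D ∧ D.eval 0 ≠ 0 ∧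
    ∀ N' D' : ℚ[X], Pool.Agent.TH32.IsTopZetaC c N' D' → N' * D = N * D' := by
  obtain ⟨N, D, h, hD⟩ := Pool.Agent.TH32.no_pole
  exact ⟨Pool.Agent.TH32.cH, N, D, fun _ _ _ => rfl, h, hD, fun N' D' h' =>
    Pool.Agent.H260TZ.topZeta_unique (Pool.Agent.TH902.TZH.cImp 4 _ N' D' h')
      (Pool.Agent.TH902.TZH.cImp 4 _ N D h)⟩

end Pool.Agent.Results.MP_512a3e_al.NoPoleAtZero
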